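import Pool.Agent.Zk58.EK.Sel

set_option autoImplicit false
set_option linter.unusedSectionVars false

/-!
Module FUS: the fusion of two Gaussian components preserves the measures.
-/

namespace Pool.Agent.Zk39.EKm

open Finset MeasureTheory ProbabilityTheory Filter Pool.Agent.Zk58.EK

open scoped BigOperators ENNReal Topology NNReal

/-- the fusion at one bond -/
def fu {S : Type} (x : ℝ × (ℝ × S)) : ℝ × S := (x.1 + x.2.1, x.2.2)

theorem fu_pres {S : Type} [MeasurableSpace S] (ν : Measure S) [IsProbabilityMeasure ν]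
    (w v' : ℝ≥0) : MeasurePreserving (fu (S := S)) (gm w (gm v' ν)) (gm (w + v') ν) := by
  have h1 : MeasurePreserving (MeasurableEquiv.prodAssoc : (ℝ × ℝ) × S ≃ᵐ ℝ × (ℝ × S)).symm
      ((gaussianReal 0 w).prod ((gaussianReal 0 v').prod ν))
      (((gaussianReal 0 w).prod (gaussianReal 0 v')).prod ν) :=
    (measurePreserving_prodAssoc _ _ _).symm _
  have h2 : MeasurePreserving (fun x : ℝ × ℝ => x.1 + x.2)
      ((gaussianReal 0 w).prod (gaussianReal 0 v')) (gaussianReal 0 (w + v')) := by
    refine ⟨measurable_fst.add measurable_snd, ?_⟩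
    have h3 := gaussianReal_conv_gaussianReal (m₁ := 0) (m₂ := 0) (v₁ := w) (v₂ := v')
    rw [add_zero] at h3
    exact h3
  have h4 := (h2.prod (MeasurePreserving.id ν)).comp h1
  exact h4

theorem t_FUS : S_FUS := by
  intro d S _ ν _ w v'
  have h := fu_pres ν w v'
  refine ⟨?_, ?_⟩
  · refine measurable_pi_lambda _ fun e => ?_
    exact h.measurable.comp (measurable_pi_apply e)
  · have h1 := Measure.infinitePi_map_pi (μ := fun _ : Bond d => gm w (gm v' ν))
      (f := fun _ => fu (S := S)) (fun _ => h.measurable)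
    unfold PX
    have h2 : (fun _ : Bond d => gm (w + v') ν) =
        fun _ : Bond d => (gm w (gm v' ν)).map (fu (S := S)) := by
      funext e
      rw [h.map_eq]
    rw [h2, ← h1]
    rfl

end Pool.Agent.Zk39.EKm
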