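import Pool.Agent.Zk58.EK.Sel

set_option autoImplicit false
set_option linter.unusedSectionVars false

/-!
Module LLN: the frequency of an event in a large cube.
-/

namespace Pool.Agent.Zk39.EKm

open Finset MeasureTheory ProbabilityTheory Filter Pool.Agent.Zk58.EK

open scoped BigOperators ENNReal Topology NNReal symmDiff

variable {d : ℕ} {S : Type} [MeasurableSpace S]

/-- Local approximations of measurable sets. -/
theorem exists_local (μ : Measure S) [IsProbabilityMeasure μ] {U : Set (Bond d → S)}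
    (hU : MeasurableSet U) {δ : ℝ} (hδ : 0 < δ) :
    ∃ (s : Finset (Bond d)) (V : Set (Bond d → S)), MeasurableSet V ∧
      (∀ X X', (∀ e ∈ s, X e = X' e) → (X ∈ V ↔ X' ∈ V)) ∧ (PX d μ).real (U ∆ V) ≤ δ := by
  have hA : IsSetAlgebra (measurableCylinders fun _ : Bond d => S) :=
    ⟨empty_mem_measurableCylinders _, fun s hs => compl_mem_measurableCylinders hs,
      fun s t hs ht => union_mem_measurableCylinders hs ht⟩
  obtain ⟨t, ht, h1⟩ := (Measure.MeasureDense.of_generateFrom_isSetAlgebra_finite (PX d μ) hA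
    generateFrom_measurableCylinders.symm).approx U hU (measure_ne_top _ _) δ hδ
  obtain ⟨s, T, hT, rfl⟩ := (mem_measurableCylinders t).1 ht
  refine ⟨s, _, MeasurableSet.of_mem_measurableCylinders ht, ?_, ?_⟩
  · intro X X' h
    rw [mem_cylinder, mem_cylinder]
    have h2 : s.restrict X = s.restrict X' := funext fun e => h e e.2
    rw [h2]
  · exact ENNReal.toReal_le_of_le_ofReal hδ.le h1.le

theorem th_th (x y : Site d) (X : Bond d → S) : th x (th y X) = th (y + x) X := by
  funext e
  simp only [th]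
  rw [add_assoc, add_comm x y]

/-- the frequency of an event -/
noncomputable def fr (V : Set (Bond d → S)) (c : Site d) (n : ℕ) (X : Bond d → S) : ℝ :=
  ∑ x ∈ cube c n, V.indicator (1 : (Bond d → S) → ℝ) (th x X)

theorem ind_int (μ : Measure S) [IsProbabilityMeasure μ] {V : Set (Bond d → S)}
    (hV : MeasurableSet V) (x : Site d) :
    Integrable (fun X => V.indicator (1 : (Bond d → S) → ℝ) (th x X)) (PX d μ) ∧
      ∫ X, V.indicator (1 : (Bond d → S) → ℝ) (th x X) ∂(PX d μ) = (PX d μ).real V := by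
  have hm : MeasurePreserving (th (S := S) x) (PX d μ) (PX d μ) := ⟨th_meas x, th_map μ x⟩
  have h1 : Integrable (V.indicator (1 : (Bond d → S) → ℝ)) (PX d μ) :=
    (integrable_const (1 : ℝ)).indicator hV
  refine ⟨hm.integrable_comp_of_integrable h1, ?_⟩
  rw [← integral_indicator_one hV]
  have h2 := integral_map (μ := PX d μ) (φ := th (S := S) x) (th_meas x).aemeasurable
    (f := V.indicator (1 : (Bond d → S) → ℝ)) (by
      rw [th_map]
      exact h1.aestronglyMeasurable)
  rw [th_map] at h2
  exact h2.symm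

theorem fr_int (μ : Measure S) [IsProbabilityMeasure μ] {V : Set (Bond d → S)}
    (hV : MeasurableSet V) (c : Site d) (n : ℕ) :
    Integrable (fr V c n) (PX d μ) ∧
      ∫ X, fr V c n X ∂(PX d μ) = (n : ℝ) ^ d * (PX d μ).real V := by
  refine ⟨integrable_finsetSum _ fun x _ => (ind_int μ hV x).1, ?_⟩
  unfold fr
  rw [integral_finsetSum _ fun x _ => (ind_int μ hV x).1,
    Finset.sum_congr rfl fun x _ => (ind_int μ hV x).2, Finset.sum_const, card_cube, nsmul_eq_mul]
  push_cast
  rfl

/-- the observable without spins -/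
noncomputable def Fv (V : Set (Bond d → S)) (X : Bond d → S) (_ : Cfg d 0) : ℝ :=
  V.indicator (1 : (Bond d → S) → ℝ) X

theorem Mx_Fv (V : Set (Bond d → S)) (R : ℕ) (X : Bond d → S) (c : Site d) (n : ℕ) :
    Mx R (Fv V) X c n = fr V c n X := by
  unfold Mx
  refine le_antisymm (Finset.sup'_le _ _ fun A _ => le_of_eq rfl) ?_
  exact Finset.le_sup' (fun A => En (Fv V) X (cube c n) (spk A)) (Finset.empty_mem_powerset _)

/-- Weak law for local events. -/
theorem lln_local (μ : Measure S) [IsProbabilityMeasure μ] {V : Set (Bond d → S)}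
    (hV : MeasurableSet V) (s : Finset (Bond d))
    (hs : ∀ X X', (∀ e ∈ s, X e = X' e) → (X ∈ V ↔ X' ∈ V)) {ε : ℝ} (hε : 0 < ε) :
    ∃ C : ℝ, 0 ≤ C ∧ ∃ n0 : ℕ, ∀ n ≥ n0,
      (PX d μ).real {X | ε * (n : ℝ) ^ d ≤ |fr V 0 n X - (n : ℝ) ^ d * (PX d μ).real V|} ≤
        C / (n : ℝ) ^ d := by
  classical
  obtain ⟨N, hN⟩ : ∃ N : ℕ, ∀ e ∈ s, ∀ i, (e.1 i).natAbs ≤ N := by
    refine ⟨∑ e ∈ s, ∑ i, (e.1 i).natAbs, fun e he i => ?_⟩
    refine le_trans ?_ (Finset.single_le_sum (f := fun e : Bond d => ∑ i, (e.1 i).natAbs)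
      (fun _ _ => Nat.zero_le _) he)
    exact Finset.single_le_sum (f := fun i => (e.1 i).natAbs) (fun _ _ => Nat.zero_le _)
      (Finset.mem_univ i)
  set v : Site d := fun _ => (N : ℤ) with hv
  set R : ℕ := 2 * N + 2 with hR
  set V' : Set (Bond d → S) := {X | th v X ∈ V} with hV'
  have hV'm : MeasurableSet V' := th_meas v hV
  have hmem : ∀ e ∈ s, ((e.1 + v, e.2) : Bond d) ∈ bonds (cube (0 : Site d) R) := by
    intro e he
    rw [mem_bonds, mem_cube, mem_cube]
    constructor
    · intro i
      have h1 := hN e he i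
      simp only [Pi.zero_apply, Pi.add_apply, hv, hR]
      push_cast
      omega
    · intro i
      have h1 := hN e he i
      simp only [tip, Pi.zero_apply, Pi.add_apply, hv, hR]
      rcases eq_or_ne i e.2 with h2 | h2
      · rw [h2] at h1 ⊢
        rw [Pi.single_eq_same]
        push_cast
        omega
      · rw [Pi.single_eq_of_ne h2]
        push_cast
        omega
  have hgood : Good μ R (Fv V') := by
    refine ⟨?_, ?_, ?_⟩
    · intro X X' σ σ' h1 _
      unfold Fv
      have h2 : X ∈ V' ↔ X' ∈ V' := by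
        refine hs _ _ fun e he => ?_
        exact h1 _ (hmem e he)
      by_cases h3 : X ∈ V'
      · rw [Set.indicator_of_mem h3, Set.indicator_of_mem (h2.1 h3)]
        rfl
      · rw [Set.indicator_of_notMem h3, Set.indicator_of_notMem (fun h4 => h3 (h2.2 h4))]
    · intro σ _
      exact measurable_one.indicator hV'm
    · intro σ _
      refine MemLp.of_bound (measurable_one.indicator hV'm).aestronglyMeasurable 1
        (Eventually.of_forall fun X => ?_)
      unfold Fv
      by_cases h3 : X ∈ V'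
      · rw [Set.indicator_of_mem h3]
        simp
      · rw [Set.indicator_of_notMem h3]
        simp
  have hPV : (PX d μ).real V' = (PX d μ).real V := by
    have h1 : (PX d μ) V' = (PX d μ) V := by
      have h2 := Measure.map_apply (μ := PX d μ) (th_meas (S := S) v) hV
      rw [th_map] at h2
      exact h2.symm
    rw [measureReal_def, measureReal_def, h1]
  have hgl : gl μ R (Fv V') = (PX d μ).real V := by
    refine tendsto_nhds_unique (gl_lim hgood) ?_
    refine Tendsto.congr' ?_ tendsto_const_nhds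
    filter_upwards [eventually_gt_atTop 0] with n hn
    have h1 : am μ R (Fv V') n = (n : ℝ) ^ d * (PX d μ).real V' := by
      unfold am
      rw [← (fr_int μ hV'm 0 n).2]
      refine integral_congr_ae (Eventually.of_forall fun X => ?_)
      exact Mx_Fv V' R X 0 n
    have h2 : (0 : ℝ) < (n : ℝ) ^ d := by positivity
    rw [h1, hPV, mul_comm, mul_div_assoc, div_self h2.ne', mul_one]
  have hfr : ∀ n X, fr V' (-v) n X = fr V 0 n X := by
    intro n X
    unfold fr
    refine Finset.sum_bij' (fun x _ => x + v) (fun x _ => x - v) ?_ ?_ ?_ ?_ ?_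
    · intro x hx
      rw [mem_cube] at hx ⊢
      intro i
      have := hx i
      simp only [Pi.neg_apply, Pi.zero_apply, Pi.add_apply] at this ⊢
      constructor <;> linarith [this.1, this.2]
    · intro x hx
      rw [mem_cube] at hx ⊢
      intro i
      have := hx i
      simp only [Pi.neg_apply, Pi.zero_apply, Pi.sub_apply] at this ⊢
      constructor <;> linarith [this.1, this.2]
    · intro x _
      simp
    · intro x _
      simp
    · intro x _
      have h1 : th x X ∈ V' ↔ th (x + v) X ∈ V := by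
        rw [hV', Set.mem_ofPred_eq, th_th]
      by_cases h3 : th x X ∈ V'
      · rw [Set.indicator_of_mem h3, Set.indicator_of_mem (h1.1 h3)]
        rfl
      · rw [Set.indicator_of_notMem h3, Set.indicator_of_notMem (fun h4 => h3 (h1.2 h4))]
  obtain ⟨C, hC, n0, h⟩ := tail hgood hε
  refine ⟨C, hC, n0, fun n hn => ?_⟩
  have h1 := h n hn (-v)
  simp only [Mx_Fv, hfr, hgl] at h1
  exact h1

theorem t_LLN : S_LLN := by
  intro d S _ μ _ U hd hU ε hε
  set P := PX d μ with hP
  have key : Tendsto (fun n : ℕ => P.real {X | (P.real U + ε) * (n : ℝ) ^ d ≤ fr U 0 n X}) atTop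
      (𝓝 0) := by
    rw [Metric.tendsto_nhds]
    intro η hη
    set δ : ℝ := min (ε / 3) (ε * η / 9) with hδ
    have hδ0 : 0 < δ := lt_min (by linarith) (by positivity)
    obtain ⟨s, V, hV, hs, hUV⟩ := exists_local μ hU hδ0
    obtain ⟨C, hC, n0, h1⟩ := lln_local μ hV s hs (show 0 < ε / 3 by linarith)
    have hW : MeasurableSet (U ∆ V) := hU.symmDiff hV
    have hVU : P.real V ≤ P.real U + δ := by
      have h2 : V ⊆ U ∪ (U ∆ V) := by
        intro X hX
        by_cases h3 : X ∈ U
        · exact Or.inl h3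
        · exact Or.inr (Or.inr ⟨hX, h3⟩)
      calc P.real V ≤ P.real (U ∪ (U ∆ V)) := measureReal_mono h2
        _ ≤ P.real U + P.real (U ∆ V) := measureReal_union_le _ _
        _ ≤ P.real U + δ := by linarith
    have hfr : ∀ n X, fr U 0 n X ≤ fr V 0 n X + fr (U ∆ V) 0 n X := by
      intro n X
      unfold fr
      rw [← Finset.sum_add_distrib]
      refine Finset.sum_le_sum fun x _ => ?_
      by_cases h3 : th x X ∈ U
      · by_cases h4 : th x X ∈ V
        · rw [Set.indicator_of_mem h3, Set.indicator_of_mem h4]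
          have : (0 : ℝ) ≤ (U ∆ V).indicator (1 : (Bond d → S) → ℝ) (th x X) :=
            Set.indicator_nonneg (fun _ _ => zero_le_one) _
          simp only [Pi.one_apply]
          linarith
        · rw [Set.indicator_of_mem h3, Set.indicator_of_notMem h4,
            Set.indicator_of_mem (show th x X ∈ U ∆ V from Or.inl ⟨h3, h4⟩)]
          simp
      · rw [Set.indicator_of_notMem h3]
        exact add_nonneg (Set.indicator_nonneg (fun _ _ => zero_le_one) _)
          (Set.indicator_nonneg (fun _ _ => zero_le_one) _)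
    have hlim : Tendsto (fun n : ℕ => C / (n : ℝ) ^ d) atTop (𝓝 0) :=
      Tendsto.div_atTop tendsto_const_nhds
        ((tendsto_pow_atTop hd).comp tendsto_natCast_atTop_atTop)
    filter_upwards [hlim.eventually (gt_mem_nhds (show 0 < η / 3 by linarith)),
      eventually_ge_atTop n0, eventually_gt_atTop 0] with n hn1 hn2 hn3
    have hn : (0 : ℝ) < (n : ℝ) ^ d := by positivity
    have h2 : P.real {X | ε / 3 * (n : ℝ) ^ d ≤ fr (U ∆ V) 0 n X} ≤ η / 3 := by
      have h3 := mul_meas_ge_le_integral_of_nonneg (μ := P) (f := fr (U ∆ V) 0 n)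
        (Eventually.of_forall fun X => Finset.sum_nonneg fun x _ =>
          Set.indicator_nonneg (fun _ _ => zero_le_one) _) (fr_int μ hW 0 n).1
        (ε / 3 * (n : ℝ) ^ d)
      rw [(fr_int μ hW 0 n).2] at h3
      have h4 : (n : ℝ) ^ d * P.real (U ∆ V) ≤ (n : ℝ) ^ d * (ε * η / 9) :=
        mul_le_mul_of_nonneg_left (hUV.trans (min_le_right _ _)) hn.le
      have h5 : ε / 3 * (n : ℝ) ^ d * P.real {X | ε / 3 * (n : ℝ) ^ d ≤ fr (U ∆ V) 0 n X} ≤
          ε / 3 * (n : ℝ) ^ d * (η / 3) := by
        refine h3.trans (h4.trans (le_of_eq ?_))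
        ring
      exact le_of_mul_le_mul_left h5 (by positivity)
    have h3 := h1 n hn2
    have h4 : {X | (P.real U + ε) * (n : ℝ) ^ d ≤ fr U 0 n X} ⊆
        {X | ε / 3 * (n : ℝ) ^ d ≤ |fr V 0 n X - (n : ℝ) ^ d * P.real V|} ∪
          {X | ε / 3 * (n : ℝ) ^ d ≤ fr (U ∆ V) 0 n X} := by
      intro X hX
      rw [Set.mem_ofPred_eq] at hX
      by_cases h5 : ε / 3 * (n : ℝ) ^ d ≤ fr (U ∆ V) 0 n X
      · exact Or.inr h5
      · left
        rw [Set.mem_ofPred_eq]
        refine le_trans ?_ (le_abs_self _)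
        have h6 := hfr n X
        have h7 : P.real V * (n : ℝ) ^ d ≤ (P.real U + ε / 3) * (n : ℝ) ^ d :=
          mul_le_mul_of_nonneg_right (hVU.trans (by linarith [min_le_left (ε / 3) (ε * η / 9)]))
            hn.le
        nlinarith [not_le.1 h5]
    have h5 := (measureReal_mono (μ := P) h4).trans (measureReal_union_le _ _)
    rw [Real.dist_eq, sub_zero, abs_of_nonneg measureReal_nonneg]
    linarith
  have h1 : (fun n : ℕ => P {X | (P.real U + ε) * (n : ℝ) ^ d ≤
      ∑ x ∈ cube (0 : Site d) n, U.indicator (1 : (Bond d → S) → ℝ) (th x X)}) =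
      fun n : ℕ => ENNReal.ofReal (P.real {X | (P.real U + ε) * (n : ℝ) ^ d ≤ fr U 0 n X}) := by
    funext n
    exact (ENNReal.ofReal_toReal (measure_ne_top P _)).symm
  rw [h1, ← ENNReal.ofReal_zero]
  exact (ENNReal.continuous_ofReal.tendsto 0).comp key

end Pool.Agent.Zk39.EKm
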