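import Pool.Agent.Zk58.EK.Sel

set_option autoImplicit false
set_option linter.unusedSectionVars false

/-!
Module LOC: local approximation of measurable sets of environments.
-/

namespace Pool.Agent.Zk39.EKm

open Finset MeasureTheory ProbabilityTheory Filter Pool.Agent.Zk58.EK

open scoped BigOperators ENNReal Topology NNReal symmDiff

/-- Module LOC. -/
theorem t_LOC : S_LOC := by
  intro d S _ μ _ U hU δ hδ
  have hA : IsSetAlgebra (measurableCylinders fun _ : Bond d => S) :=
    ⟨empty_mem_measurableCylinders _, fun s hs => compl_mem_measurableCylinders hs,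
      fun s t hs ht => union_mem_measurableCylinders hs ht⟩
  obtain ⟨t, ht, h1⟩ := (Measure.MeasureDense.of_generateFrom_isSetAlgebra_finite (PX d μ) hA
    generateFrom_measurableCylinders.symm).approx U hU (measure_ne_top _ _) δ hδ
  obtain ⟨s, T, hT, rfl⟩ := (mem_measurableCylinders t).1 ht
  refine ⟨_, MeasurableSet.of_mem_measurableCylinders ht, ⟨s, ?_⟩, ?_⟩
  · intro X X' h
    rw [mem_cylinder, mem_cylinder]
    have h2 : s.restrict X = s.restrict X' := funext fun e => h e e.2
    rw [h2]
  · have h3 : {X : Bond d → S | ¬ (X ∈ U ↔ X ∈ cylinder s T)} = U ∆ cylinder s T := by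
      ext X
      rw [Set.mem_ofPred_eq, Set.mem_symmDiff]
      tauto
    rw [h3]
    exact ENNReal.toReal_le_of_le_ofReal hδ.le h1.le

end Pool.Agent.Zk39.EKm
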